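import Pool.Agent.Lib.MP_95ac01_nt.Iface

/-!
# MP_95ac01_nt, module MINOR: a large 2 x 2 minor of cubic monomials
-/

set_option autoImplicit false

namespace Cub.H78

open Finset

theorem minor : MinorStatement := by
  refine ⟨256, fun B x y hx hy => ?_⟩
  rw [mem_shell] at hx hy
  obtain ⟨hxB, -, ix, hix⟩ := hx
  obtain ⟨hyB, -, iy, hiy⟩ := hy
  obtain ⟨i, hi⟩ := exists_sz x
  obtain ⟨j, hj⟩ := exists_sz y
  have hxi : ∀ k, |x k| ≤ |x i| := fun k => hi ▸ abs_le_sz x k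
  have hyj : ∀ k, |y k| ≤ |y j| := fun k => hj ▸ abs_le_sz y k
  have hX : (B : ℤ) < 2 * |x i| := by have := hxi ix; linarith
  have hY : (B : ℤ) < 2 * |y j| := by have := hyj iy; linarith
  have hB0 : (0 : ℤ) ≤ B := by positivity
  have hwd : (wd x y : ℤ) ≤ 2 * (B : ℤ) ^ 2 := by exact_mod_cast wd_le_two_mul hxB hyB
  have hw0 : (0 : ℤ) ≤ (wd x y : ℤ) := by positivity
  rcases le_or_gt (2 * |y i|) |y j| with hcase | hcase
  · refine ⟨mon3 i i i, mon3 j j j, ?_⟩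
    rw [mv_mon3, mv_mon3, mv_mon3, mv_mon3]
    set X := |x i| with hXdef
    set Y := |y j| with hYdef
    have hX0 : 0 ≤ X := abs_nonneg _
    have hY0 : 0 ≤ Y := abs_nonneg _
    have e1 : |x i * x i * x i * (y j * y j * y j)| = X ^ 3 * Y ^ 3 := by
      simp only [abs_mul]; rw [← hXdef, ← hYdef]; ring
    have e2 : |x j * x j * x j * (y i * y i * y i)| = |x j| ^ 3 * |y i| ^ 3 := by
      simp only [abs_mul]; ring
    have e3 : 8 * (|x j| ^ 3 * |y i| ^ 3) ≤ X ^ 3 * Y ^ 3 := by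
      calc 8 * (|x j| ^ 3 * |y i| ^ 3) = |x j| ^ 3 * (2 * |y i|) ^ 3 := by ring
        _ ≤ X ^ 3 * Y ^ 3 := by
            have := hxi j
            gcongr
    have e4 : X ^ 3 * Y ^ 3 - |x j| ^ 3 * |y i| ^ 3 ≤
        |x i * x i * x i * (y j * y j * y j) - x j * x j * x j * (y i * y i * y i)| := by
      rw [← e1, ← e2]; exact abs_sub_abs_le_abs_sub _ _
    have e5 : (B : ℤ) ^ 6 ≤ 64 * (X ^ 3 * Y ^ 3) := by
      calc (B : ℤ) ^ 6 = (B : ℤ) ^ 3 * (B : ℤ) ^ 3 := by ring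
        _ ≤ (2 * X) ^ 3 * (2 * Y) ^ 3 := by gcongr
        _ = 64 * (X ^ 3 * Y ^ 3) := by ring
    have e6 : (B : ℤ) ^ 4 * (wd x y : ℤ) ≤ 2 * (B : ℤ) ^ 6 := by
      calc (B : ℤ) ^ 4 * (wd x y : ℤ) ≤ (B : ℤ) ^ 4 * (2 * (B : ℤ) ^ 2) := by gcongr
        _ = 2 * (B : ℤ) ^ 6 := by ring
    have e7 : 0 ≤ X ^ 3 * Y ^ 3 := by positivity
    push_cast
    linarith
  · -- `2 |y i| > |y j|`
    obtain ⟨a, b, hab⟩ := exists_wd x y
    have hid : mn x y a b * x i = x a * mn x y i b - x b * mn x y i a := by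
      unfold mn; ring
    have hX1 : 0 < |x i| := by linarith
    have h1 : (wd x y : ℤ) ≤ |mn x y i b| + |mn x y i a| := by
      have h2 : (wd x y : ℤ) * |x i| ≤ (|mn x y i b| + |mn x y i a|) * |x i| := by
        calc (wd x y : ℤ) * |x i| = |mn x y a b * x i| := by rw [abs_mul, hab]
          _ = |x a * mn x y i b - x b * mn x y i a| := by rw [hid]
          _ ≤ |x a * mn x y i b| + |x b * mn x y i a| := abs_sub _ _
          _ = |x a| * |mn x y i b| + |x b| * |mn x y i a| := by rw [abs_mul, abs_mul]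
          _ ≤ |x i| * |mn x y i b| + |x i| * |mn x y i a| := by
              have := hxi a; have := hxi b
              gcongr
          _ = _ := by ring
      exact le_of_mul_le_mul_right h2 hX1
    have h2 : ∃ l, (wd x y : ℤ) ≤ 2 * |mn x y i l| := by
      rcases le_total |mn x y i b| |mn x y i a| with h | h
      · exact ⟨a, by linarith⟩
      · exact ⟨b, by linarith⟩
    obtain ⟨l, hl⟩ := h2
    refine ⟨mon3 i i i, mon3 i i l, ?_⟩
    rw [mv_mon3, mv_mon3, mv_mon3, mv_mon3]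
    have e1 : x i * x i * x i * (y i * y i * y l) - x i * x i * x l * (y i * y i * y i) =
        x i ^ 2 * y i ^ 2 * mn x y i l := by unfold mn; ring
    rw [e1, abs_mul, abs_mul, abs_pow, abs_pow]
    have hYi : (B : ℤ) ≤ 4 * |y i| := by linarith
    have h3 : (B : ℤ) ^ 4 ≤ 64 * (|x i| ^ 2 * |y i| ^ 2) := by
      calc (B : ℤ) ^ 4 = (B : ℤ) ^ 2 * (B : ℤ) ^ 2 := by ring
        _ ≤ (2 * |x i|) ^ 2 * (4 * |y i|) ^ 2 := by gcongr
        _ = 64 * (|x i| ^ 2 * |y i| ^ 2) := by ring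
    have h4 : (B : ℤ) ^ 4 * (wd x y : ℤ) ≤ (64 * (|x i| ^ 2 * |y i| ^ 2)) * (2 * |mn x y i l|) := by
      gcongr
    have h5 : 0 ≤ |x i| ^ 2 * |y i| ^ 2 * |mn x y i l| := by positivity
    push_cast
    linarith

end Cub.H78
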