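import Pool.Agent.Lib.MP_95ac01_nt.Iface

/-!
# MP_95ac01_nt, module N1LOW: pigeonhole lower bound for the number of forms vanishing at a point
-/

set_option autoImplicit false

namespace Cub.H78

open Finset

theorem abs_mv_le (m : Mon) (x : Fin 4 → ℤ) (B : ℤ) (hx : ∀ i, |x i| ≤ B) :
    |mv m x| ≤ B ^ 3 := by
  obtain ⟨i, j, k, rfl⟩ := exists_mon3 m
  have hB : 0 ≤ B := (abs_nonneg _).trans (hx 0)
  rw [mv_mon3, abs_mul, abs_mul]
  calc |x i| * |x j| * |x k| ≤ B * B * B := by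
        have := hx i; have := hx j; have := hx k
        gcongr
    _ = B ^ 3 := by ring

theorem n1low : N1LowStatement := by
  intro B H x hB hH hx
  set box' : Finset (Mon → ℤ) := Fintype.piFinset fun _ => Icc (0 : ℤ) H with hbox'
  have hcard : box'.card = (H + 1) ^ 20 := by
    rw [hbox', Fintype.card_piFinset]
    simp only [Int.card_Icc, Finset.prod_const, Finset.card_univ, card_mon]
    congr 1
  have hmem : ∀ c : Mon → ℤ, c ∈ box' ↔ ∀ m, 0 ≤ c m ∧ c m ≤ (H : ℤ) := by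
    intro c
    simp [hbox', Fintype.mem_piFinset]
  set lo : ℤ := -((H : ℤ) * ∑ m : Mon, (|mv m x| - mv m x) / 2) with hlo
  set hi : ℤ := (H : ℤ) * ∑ m : Mon, (|mv m x| + mv m x) / 2 with hhi
  have hparts : ∀ m : Mon, (|mv m x| - mv m x) / 2 + (|mv m x| + mv m x) / 2 = |mv m x| ∧
      0 ≤ (|mv m x| - mv m x) / 2 ∧ 0 ≤ (|mv m x| + mv m x) / 2 ∧
      -((|mv m x| - mv m x) / 2) ≤ mv m x ∧ mv m x ≤ (|mv m x| + mv m x) / 2 := by
    intro m
    rcases abs_cases (mv m x) with ⟨h1, h2⟩ | ⟨h1, h2⟩ <;> rw [h1] <;> omega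
  have hmaps : ∀ c ∈ box', ev c x ∈ Icc lo hi := by
    intro c hc
    rw [hmem] at hc
    rw [mem_Icc]
    constructor
    · rw [hlo, Finset.mul_sum, ← Finset.sum_neg_distrib]
      unfold ev
      refine Finset.sum_le_sum fun m _ => ?_
      obtain ⟨-, h2, -, h4, -⟩ := hparts m
      obtain ⟨c0, c1⟩ := hc m
      calc -((H : ℤ) * ((|mv m x| - mv m x) / 2)) ≤ -(c m * ((|mv m x| - mv m x) / 2)) := by
            have := mul_le_mul_of_nonneg_right c1 h2
            linarith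
        _ = c m * (-((|mv m x| - mv m x) / 2)) := by ring
        _ ≤ c m * mv m x := mul_le_mul_of_nonneg_left h4 c0
    · rw [hhi, Finset.mul_sum]
      unfold ev
      refine Finset.sum_le_sum fun m _ => ?_
      obtain ⟨-, -, h3, -, h5⟩ := hparts m
      obtain ⟨c0, c1⟩ := hc m
      calc c m * mv m x ≤ c m * ((|mv m x| + mv m x) / 2) := mul_le_mul_of_nonneg_left h5 c0
        _ ≤ (H : ℤ) * ((|mv m x| + mv m x) / 2) := mul_le_mul_of_nonneg_right c1 h3
  have hsum : hi - lo ≤ 20 * ((H : ℤ) * (B : ℤ) ^ 3) := by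
    have h1 : hi - lo = (H : ℤ) * ∑ m : Mon, |mv m x| := by
      rw [hlo, hhi, sub_neg_eq_add, ← mul_add, ← Finset.sum_add_distrib]
      congr 1
      refine Finset.sum_congr rfl fun m _ => ?_
      have := (hparts m).1
      linarith
    have h2 : ∑ m : Mon, |mv m x| ≤ 20 * (B : ℤ) ^ 3 := by
      calc ∑ m : Mon, |mv m x| ≤ ∑ _m : Mon, (B : ℤ) ^ 3 :=
            Finset.sum_le_sum fun m _ => abs_mv_le m x B hx
        _ = 20 * (B : ℤ) ^ 3 := by
            rw [Finset.sum_const, Finset.card_univ, card_mon]; simp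
    rw [h1]
    have hH0 : (0 : ℤ) ≤ H := by positivity
    calc (H : ℤ) * ∑ m : Mon, |mv m x| ≤ (H : ℤ) * (20 * (B : ℤ) ^ 3) :=
          mul_le_mul_of_nonneg_left h2 hH0
      _ = 20 * ((H : ℤ) * (B : ℤ) ^ 3) := by ring
  have hIcc : ((Icc lo hi).card : ℤ) ≤ 21 * ((H : ℤ) * (B : ℤ) ^ 3) := by
    have hone : (1 : ℤ) ≤ (H : ℤ) * (B : ℤ) ^ 3 := by
      have h1 : (1 : ℤ) ≤ H := by exact_mod_cast hH
      have h2 : (1 : ℤ) ≤ (B : ℤ) ^ 3 := by exact_mod_cast Nat.one_le_pow 3 B hB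
      exact one_le_mul_of_one_le_of_one_le h1 h2
    rw [Int.card_Icc]
    have : ((hi + 1 - lo).toNat : ℤ) ≤ max (hi + 1 - lo) 0 := by
      rw [Int.toNat_eq_max]
    refine this.trans (max_le ?_ ?_)
    · linarith
    · linarith
  have hfib : ∀ v ∈ Icc lo hi, (box'.filter fun c => ev c x = v).card ≤ n1 x 0 H := by
    intro v _
    rcases Finset.eq_empty_or_nonempty (box'.filter fun c => ev c x = v) with h0 | ⟨c0, hc0⟩
    · rw [h0]; simp
    · rw [Finset.mem_filter, hmem] at hc0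
      unfold n1
      refine Finset.card_le_card_of_injOn (fun c => c - c0) ?_ ?_
      · intro c hc
        have hc' := Finset.mem_filter.1 (Finset.mem_coe.1 hc)
        rw [hmem] at hc'
        refine Finset.mem_coe.2 (Finset.mem_filter.2 ⟨?_, ?_⟩)
        · rw [mem_box]
          intro m
          have h1 := hc'.1 m
          have h2 := hc0.1 m
          simp only [Pi.sub_apply]
          rw [abs_le]
          constructor <;> linarith [h1.1, h1.2, h2.1, h2.2]
        · show ev (c - c0) x = 0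
          rw [ev_sub, hc'.2, hc0.2, sub_self]
      · intro c _ c' _ h
        exact sub_left_injective h
  have key := Finset.card_le_mul_card_image_of_maps_to hmaps (n1 x 0 H) hfib
  rw [hcard] at key
  have key2 : ((H : ℤ) + 1) ^ 20 ≤ (n1 x 0 H : ℤ) * (21 * ((H : ℤ) * (B : ℤ) ^ 3)) := by
    calc ((H : ℤ) + 1) ^ 20 = (((H + 1) ^ 20 : ℕ) : ℤ) := by push_cast; ring
      _ ≤ ((n1 x 0 H * (Icc lo hi).card : ℕ) : ℤ) := by exact_mod_cast key
      _ = (n1 x 0 H : ℤ) * ((Icc lo hi).card : ℤ) := by push_cast; ring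
      _ ≤ _ := mul_le_mul_of_nonneg_left hIcc (Int.natCast_nonneg _)
  have key3 : (H : ℤ) * (H : ℤ) ^ 19 ≤ (H : ℤ) * (21 * (B : ℤ) ^ 3 * (n1 x 0 H : ℤ)) := by
    calc (H : ℤ) * (H : ℤ) ^ 19 = (H : ℤ) ^ 20 := by ring
      _ ≤ ((H : ℤ) + 1) ^ 20 := by gcongr; linarith
      _ ≤ _ := key2
      _ = _ := by ring
  have hHpos : (0 : ℤ) < H := by exact_mod_cast hH
  have key4 := le_of_mul_le_mul_left key3 hHpos
  exact_mod_cast key4

end Cub.H78
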