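import Pool.Agent.Lib.MP_95ac01_nt.Iface

/-!
# MP_95ac01_nt, module REGA: the analytic part of REGION
-/

set_option autoImplicit false

namespace Cub.H78

open Finset

/-- Intermediate value: a function with derivative at least `c` near `a` and small value at `a`. -/
theorem exists_zero_of_deriv (F F' : ℝ → ℝ) (a r c : ℝ) (hr : 0 < r) (_hc : 0 < c)
    (hF : ∀ t, HasDerivAt F (F' t) t) (h0 : |F a| ≤ c * r)
    (hd : ∀ t, |t - a| ≤ r → c ≤ F' t) : ∃ s₀, |s₀ - a| ≤ r ∧ F s₀ = 0 := by
  have hcont : Continuous F := continuous_iff_continuousAt.2 fun t => (hF t).continuousAt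
  have hmv : ∀ x ∈ Set.Icc (a - r) (a + r), ∀ y ∈ Set.Icc (a - r) (a + r), x ≤ y →
      c * (y - x) ≤ F y - F x := by
    intro x hx y hy hxy
    refine Convex.mul_sub_le_image_sub_of_le_deriv (convex_Icc (a - r) (a + r))
      hcont.continuousOn ?_ ?_ x hx y hy hxy
    · exact fun t _ => (hF t).differentiableAt.differentiableWithinAt
    · intro t ht
      rw [interior_Icc] at ht
      rw [(hF t).deriv]
      refine hd t ?_
      rw [abs_le]
      constructor <;> linarith [ht.1, ht.2]
  obtain ⟨h01, h02⟩ := abs_le.1 h0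
  have h1 : 0 ≤ F (a + r) := by
    have := hmv a ⟨by linarith, by linarith⟩ (a + r) ⟨by linarith, by linarith⟩ (by linarith)
    have e : c * (a + r - a) = c * r := by ring
    rw [e] at this
    linarith
  have h2 : F (a - r) ≤ 0 := by
    have := hmv (a - r) ⟨by linarith, by linarith⟩ a ⟨by linarith, by linarith⟩ (by linarith)
    have e : c * (a - (a - r)) = c * r := by ring
    rw [e] at this
    linarith
  obtain ⟨s, hs, hs0⟩ := intermediate_value_Icc (by linarith : a - r ≤ a + r)
    hcont.continuousOn ⟨h2, h1⟩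
  refine ⟨s, ?_, hs0⟩
  rw [abs_le]
  constructor <;> linarith [hs.1, hs.2]

/-- The same with the sign unknown. -/
theorem exists_zero_of_deriv' (F F' : ℝ → ℝ) (a r c D : ℝ) (hr : 0 < r) (hc : 0 < c)
    (hF : ∀ t, HasDerivAt F (F' t) t) (h0 : |F a| ≤ c * r) (hD : 2 * c ≤ |D|)
    (hd : ∀ t, |t - a| ≤ r → |F' t - D| ≤ c) : ∃ s₀, |s₀ - a| ≤ r ∧ F s₀ = 0 := by
  rcases abs_cases D with ⟨h, -⟩ | ⟨h, -⟩
  · refine exists_zero_of_deriv F F' a r c hr hc hF h0 fun t ht => ?_
    have := (abs_le.1 (hd t ht)).1
    linarith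
  · obtain ⟨s, hs, hs0⟩ := exists_zero_of_deriv (fun t => - F t) (fun t => - F' t) a r c hr hc
      (fun t => (hF t).neg) (by rw [abs_neg]; exact h0) (fun t ht => by
        have := (abs_le.1 (hd t ht)).2
        linarith)
    exact ⟨s, hs, by linarith [hs0]⟩

/-- Lipschitz bound for cubic forms. -/
theorem abs_ev_sub_le (g : Mon → ℝ) (x y : Fin 4 → ℝ) (d : ℝ) (hg : ∀ m, |g m| ≤ 1)
    (hx : ∀ i, |x i| ≤ 2) (hy : ∀ i, |y i| ≤ 2) (hd : ∀ i, |x i - y i| ≤ d) :
    |ev g x - ev g y| ≤ 240 * d := by
  have hd0 : 0 ≤ d := (abs_nonneg _).trans (hd 0)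
  have h1 : ∀ m, |mv m x - mv m y| ≤ 12 * d := by
    intro m
    obtain ⟨i, j, k, rfl⟩ := exists_mon3 m
    simp only [mv_mon3]
    have e : x i * x j * x k - y i * y j * y k =
        (x i - y i) * (x j * x k) + (x j - y j) * (y i * x k) + (x k - y k) * (y i * y j) := by ring
    rw [e]
    have b1 : |(x i - y i) * (x j * x k)| ≤ d * (2 * 2) := by
      rw [abs_mul, abs_mul]
      have := hd i; have := hx j; have := hx k
      gcongr
    have b2 : |(x j - y j) * (y i * x k)| ≤ d * (2 * 2) := by
      rw [abs_mul, abs_mul]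
      have := hd j; have := hy i; have := hx k
      gcongr
    have b3 : |(x k - y k) * (y i * y j)| ≤ d * (2 * 2) := by
      rw [abs_mul, abs_mul]
      have := hd k; have := hy i; have := hy j
      gcongr
    have := abs_add_le ((x i - y i) * (x j * x k) + (x j - y j) * (y i * x k))
      ((x k - y k) * (y i * y j))
    have := abs_add_le ((x i - y i) * (x j * x k)) ((x j - y j) * (y i * x k))
    linarith
  unfold ev
  rw [← Finset.sum_sub_distrib]
  calc |∑ m, (g m * mv m x - g m * mv m y)| ≤ ∑ m, |g m * mv m x - g m * mv m y| :=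
        Finset.abs_sum_le_sum_abs _ _
    _ ≤ ∑ _m : Mon, 12 * d := by
        refine Finset.sum_le_sum fun m _ => ?_
        rw [← mul_sub, abs_mul]
        have := mul_le_mul (hg m) (h1 m) (abs_nonneg _) zero_le_one
        linarith
    _ = 240 * d := by
        rw [Finset.sum_const, Finset.card_univ, card_mon]; simp; ring

/-- Continuity of all first derivatives in the coefficients and the point. -/
theorem continuous_pd :
    Continuous (fun z : (Mon → ℝ) × (Fin 4 → ℝ) => fun j : Fin 4 => pd z.1 j z.2) := by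
  refine continuous_pi fun j => ?_
  unfold pd dmv
  fun_prop

/-- Uniform continuity of the first derivatives. -/
theorem exists_pd_modulus (ε : ℝ) (hε : 0 < ε) : ∃ r : ℝ, 0 < r ∧ r ≤ 1 / 16 ∧
    ∀ (g : Mon → ℝ) (j : Fin 4) (x y : Fin 4 → ℝ), (∀ m, |g m| ≤ 1) → (∀ i, |x i| ≤ 2) →
      (∀ i, |y i| ≤ 2) → (∀ i, |x i - y i| ≤ r) → |pd g j x - pd g j y| ≤ ε := by
  have hK : IsCompact ((Metric.closedBall (0 : Mon → ℝ) 1) ×ˢ
      (Metric.closedBall (0 : Fin 4 → ℝ) 2)) :=
    (isCompact_closedBall _ _).prod (isCompact_closedBall _ _)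
  have hu := hK.uniformContinuousOn_of_continuous continuous_pd.continuousOn
  rw [Metric.uniformContinuousOn_iff] at hu
  obtain ⟨δ, hδ, H⟩ := hu ε hε
  refine ⟨min (1 / 16) (δ / 2), by positivity, min_le_left _ _, ?_⟩
  intro g j x y hg hx hy hxy
  have hgm : g ∈ Metric.closedBall (0 : Mon → ℝ) 1 := by
    rw [Metric.mem_closedBall, dist_zero_right, pi_norm_le_iff_of_nonneg zero_le_one]
    exact fun m => by rw [Real.norm_eq_abs]; exact hg m
  have hxm : x ∈ Metric.closedBall (0 : Fin 4 → ℝ) 2 := by
    rw [Metric.mem_closedBall, dist_zero_right, pi_norm_le_iff_of_nonneg zero_le_two]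
    exact fun m => by rw [Real.norm_eq_abs]; exact hx m
  have hym : y ∈ Metric.closedBall (0 : Fin 4 → ℝ) 2 := by
    rw [Metric.mem_closedBall, dist_zero_right, pi_norm_le_iff_of_nonneg zero_le_two]
    exact fun m => by rw [Real.norm_eq_abs]; exact hy m
  have hdist : dist (g, x) (g, y) < δ := by
    rw [Prod.dist_eq]
    simp only [dist_self]
    have : dist x y ≤ δ / 2 := by
      rw [dist_pi_le_iff (by positivity)]
      intro i
      rw [Real.dist_eq]
      exact (hxy i).trans (min_le_right _ _)
    have h0 : (0 : ℝ) ≤ dist x y := dist_nonneg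
    rw [max_eq_right h0]
    linarith
  have := H (g, x) ⟨hgm, hxm⟩ (g, y) ⟨hgm, hym⟩ hdist
  have h2 := (dist_le_pi_dist (fun j : Fin 4 => pd g j x) (fun j : Fin 4 => pd g j y) j).trans
    this.le
  rwa [Real.dist_eq] at h2

theorem rega : RegAStatement := by
  intro κ hκ
  obtain ⟨r, hr, hr16, hmod⟩ := exists_pd_modulus (κ / 2) (by positivity)
  refine ⟨min r (κ / 2 * r / 240), 1 / 240, ?_, ?_, by norm_num, by norm_num, ?_⟩
  · positivity
  · exact (min_le_left _ _).trans (hr16.trans (by norm_num))
  intro g ξ j hg hξ h0 hκj y hy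
  have hρr : min r (κ / 2 * r / 240) ≤ r := min_le_left _ _
  have hρ2 : min r (κ / 2 * r / 240) ≤ κ / 2 * r / 240 := min_le_right _ _
  have hρ0 : 0 ≤ min r (κ / 2 * r / 240) := by positivity
  -- points of the segment are in the box of size 2
  have hbox : ∀ s, |s - ξ j| ≤ 1 / 8 → ∀ i, |Function.update y j s i| ≤ 2 := by
    intro s hs i
    by_cases hij : i = j
    · subst hij
      rw [Function.update_self]
      have h1 := hξ i
      have h2 : |s| ≤ |s - ξ i| + |ξ i| := by
        have := abs_add_le (s - ξ i) (ξ i); simpa using this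
      linarith
    · rw [Function.update_of_ne hij]
      have h1 := hξ i
      have h2 : |y i| ≤ |y i - ξ i| + |ξ i| := by
        have := abs_add_le (y i - ξ i) (ξ i); simpa using this
      have h3 := hy i hij
      linarith
  have hξ2 : ∀ i, |ξ i| ≤ 2 := fun i => (hξ i).trans (by norm_num)
  have hzero := exists_zero_of_deriv' (fun t => ev g (Function.update y j t))
    (fun t => pd g j (Function.update y j t)) (ξ j) r (κ / 2) (pd g j ξ) hr (by positivity)
    (fun t => hasDerivAt_ev g j y t) ?_ (by linarith) ?_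
  · obtain ⟨s₀, hs₀, hF⟩ := hzero
    refine ⟨s₀, hs₀.trans hr16, ?_⟩
    intro δ hδ hδ1 s hs
    have hs1 : |s - s₀| ≤ 1 / 240 := hs.trans (by linarith)
    have hsξ : |s - ξ j| ≤ 1 / 8 := by
      have := abs_add_le (s - s₀) (s₀ - ξ j)
      have e : s - s₀ + (s₀ - ξ j) = s - ξ j := by ring
      rw [e] at this
      linarith
    have hs₀ξ : |s₀ - ξ j| ≤ 1 / 8 := by linarith
    have hL := abs_ev_sub_le g (Function.update y j s) (Function.update y j s₀) (1 / 240 * δ) hg
      (hbox s hsξ) (hbox s₀ hs₀ξ) ?_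
    · have hF' : ev g (Function.update y j s₀) = 0 := hF
      rw [hF', sub_zero] at hL
      linarith
    · intro i
      by_cases hij : i = j
      · subst hij
        rw [Function.update_self, Function.update_self]
        exact hs
      · rw [Function.update_of_ne hij, Function.update_of_ne hij, sub_self, abs_zero]
        positivity
  · -- small value at the centre
    have hL := abs_ev_sub_le g (Function.update y j (ξ j)) ξ (min r (κ / 2 * r / 240)) hg
      (hbox (ξ j) (by simp)) hξ2 ?_
    · rw [h0, sub_zero] at hL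
      show |ev g (Function.update y j (ξ j))| ≤ κ / 2 * r
      linarith
    · intro i
      by_cases hij : i = j
      · subst hij
        rw [Function.update_self, sub_self, abs_zero]
        exact hρ0
      · rw [Function.update_of_ne hij]
        exact hy i hij
  · intro t ht
    refine hmod g j _ ξ hg (hbox t (by linarith)) hξ2 ?_
    intro i
    by_cases hij : i = j
    · subst hij
      rw [Function.update_self]
      exact ht
    · rw [Function.update_of_ne hij]
      exact (hy i hij).trans hρr

end Cub.H78
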